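import Pool.Agent.Helper32.RZ.S10a

/-! # RZ-S10: patches (equal area, almost isometric) -/

set_option autoImplicit false

open MeasureTheory Set Metric Filter Topology
open scoped ENNReal

namespace Pool.Agent.Helper32.RZ

open Pool.Agent.Helper42.RZ

theorem angle_close {v v' : ℝ × ℝ} {m ρ : ℝ} (hm : 0 < m) (hv : |v.2| ≤ 1) (hv' : |v'.2| ≤ 1)
    (h1 : m ^ 2 ≤ 1 - v.2 ^ 2) (h2 : m ^ 2 ≤ 1 - v'.2 ^ 2) (hd : |v.1 - v'.1| ≤ Real.pi)
    (h : ‖pt v - pt v'‖ < ρ) : |v.1 - v'.1| < Real.pi / (2 * m) * ρ := by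
  have h3 := norm_pt_sub_sq hv hv'
  have hp : m ≤ Real.sqrt (1 - v.2 ^ 2) := Real.le_sqrt_of_sq_le h1
  have hq : m ≤ Real.sqrt (1 - v'.2 ^ 2) := Real.le_sqrt_of_sq_le h2
  have hπ := Real.pi_pos
  have h4 : 2 / Real.pi * (|v.1 - v'.1| / 2) ≤ |Real.sin ((v.1 - v'.1) / 2)| := by
    have h5 : |Real.sin ((v.1 - v'.1) / 2)| = Real.sin (|v.1 - v'.1| / 2) := by
      have h50 : 0 ≤ Real.sin (|v.1 - v'.1| / 2) :=
        Real.sin_nonneg_of_nonneg_of_le_pi (by positivity) (by linarith)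
      rcases le_total 0 (v.1 - v'.1) with h51 | h51
      · rw [abs_of_nonneg h51] at h50 ⊢
        rw [abs_of_nonneg h50]
      · rw [abs_of_nonpos h51] at h50 ⊢
        rw [neg_div, Real.sin_neg] at h50 ⊢
        exact abs_of_nonpos (by linarith)
    rw [h5]
    exact Real.mul_le_sin (by positivity) (by linarith)
  have h6 : 4 * (m * m) * (2 / Real.pi * (|v.1 - v'.1| / 2)) ^ 2 ≤ ‖pt v - pt v'‖ ^ 2 := by
    have h7 : (2 / Real.pi * (|v.1 - v'.1| / 2)) ^ 2 ≤ Real.sin ((v.1 - v'.1) / 2) ^ 2 := by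
      rw [← sq_abs (Real.sin _)]
      exact pow_le_pow_left₀ (by positivity) h4 2
    have h8 : m * m ≤ Real.sqrt (1 - v.2 ^ 2) * Real.sqrt (1 - v'.2 ^ 2) :=
      mul_le_mul hp hq hm.le (hm.le.trans hp)
    have h9 := mul_le_mul h8 h7 (by positivity) (by positivity)
    rw [h3]
    nlinarith [sq_nonneg (v.2 - v'.2), sq_nonneg (Real.sqrt (1 - v.2 ^ 2) - Real.sqrt (1 - v'.2 ^ 2))]
  have h10 : (2 * m / Real.pi * |v.1 - v'.1|) ^ 2 < ρ ^ 2 := by
    have h11 : (2 * m / Real.pi * |v.1 - v'.1|) ^ 2 =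
        4 * (m * m) * (2 / Real.pi * (|v.1 - v'.1| / 2)) ^ 2 := by ring
    rw [h11]
    exact h6.trans_lt (pow_lt_pow_left₀ h (norm_nonneg _) two_ne_zero)
  have h12 : 2 * m / Real.pi * |v.1 - v'.1| < ρ :=
    lt_of_pow_lt_pow_left₀ 2 ((norm_nonneg _).trans h.le) h10
  calc |v.1 - v'.1| = Real.pi / (2 * m) * (2 * m / Real.pi * |v.1 - v'.1|) := by
        field_simp
    _ < Real.pi / (2 * m) * ρ := mul_lt_mul_of_pos_left h12 (by positivity)

theorem pt_periodic (a z : ℝ) (s : ℝ) (hs : s = 2 * Real.pi ∨ s = -(2 * Real.pi)) :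
    pt (a + s, z) = pt (a, z) := by
  unfold pt
  rcases hs with rfl | rfl
  · simp only [Real.cos_add_two_pi, Real.sin_add_two_pi]
  · simp only [← sub_eq_add_neg, Real.cos_sub_two_pi, Real.sin_sub_two_pi]

/-- the rectangle with centre `(a, z)` and half widths `v`, `w` -/
def Rect (a z v w : ℝ) : Set (ℝ × ℝ) := Ioc (a - v) (a + v) ×ˢ Ioc (z - w) (z + w)

/-- the part of the rectangle at distance `b` (first coordinate) and `r` (second coordinate)
from the boundary -/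
def RectI (a z v w b r : ℝ) : Set (ℝ × ℝ) :=
  Ioo (a - v + b) (a + v - b) ×ˢ Ioo (z - w + r) (z + w - r)

theorem measurableSet_Rect (a z v w : ℝ) : MeasurableSet (Rect a z v w) :=
  measurableSet_Ioc.prod measurableSet_Ioc

theorem measurableSet_RectI (a z v w b r : ℝ) : MeasurableSet (RectI a z v w b r) :=
  measurableSet_Ioo.prod measurableSet_Ioo

theorem interior_patch {a z v w m ρ : ℝ} (hm : 0 < m) (hρ : 0 < ρ)
    (hR : Rect a z v w ⊆ Q0) (hz1 : z + w < 1) (hmz : ∀ t, |t - z| ≤ w → m ^ 2 ≤ 1 - t ^ 2)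
    {x y : E3} (hx : x ∈ pc (RectI a z v w (Real.pi / (2 * m) * ρ) ρ)) (hy : ‖y‖ = 1)
    (hxy : ‖x - y‖ < ρ) : y ∈ pc (Rect a z v w) := by
  have hπ := Real.pi_pos
  have hb : 0 < Real.pi / (2 * m) * ρ := by positivity
  set b := Real.pi / (2 * m) * ρ with hbdef
  obtain ⟨hx1, ⟨h1, h2⟩, h3, h4⟩ := hx
  have hxR : co x ∈ Rect a z v w := ⟨⟨by linarith, by linarith⟩, ⟨by linarith, by linarith⟩⟩
  have hxQ := hR hxR
  have hxe : pt (co x) = x := (pt_co hx1 (abs_lt.2 ⟨hxQ.2.1, hxQ.2.2⟩)).1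
  have h5 : |x 2 - y 2| < ρ := by
    have := PiLp.norm_apply_le (x - y) 2
    rw [Real.norm_eq_abs] at this
    exact this.trans_lt hxy
  have h6 := abs_lt.1 h5
  have hc2 : (co x).2 = x 2 := rfl
  have hc2y : (co y).2 = y 2 := rfl
  rw [hc2] at h3 h4
  have hy2 : y 2 ∈ Ioo (z - w) (z + w) := ⟨by linarith, by linarith⟩
  have hz0 : -1 ≤ z - w := by
    have h0 : (0 : ℝ) < w := by linarith [hy2.1, hy2.2]
    by_contra hcon
    push Not at hcon
    have h7 : (min (z + w) ((z - w + -1) / 2)) ∈ Ioc (z - w) (z + w) :=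
      ⟨lt_min (by linarith) (by linarith), min_le_left _ _⟩
    have h8 := hR (show ((co x).1, min (z + w) ((z - w + -1) / 2)) ∈ Rect a z v w from ⟨hxR.1, h7⟩)
    have h9 := h8.2.1
    have h10 := min_le_right (z + w) ((z - w + -1) / 2)
    simp only at h9
    linarith
  have hy3 : |y 2| < 1 := abs_lt.2 ⟨by linarith [hy2.1], by linarith [hy2.2]⟩
  obtain ⟨hye, hyQ⟩ := pt_co hy hy3
  have hx3 : |x 2| ≤ 1 := by
    have := hxQ.2
    rw [hc2] at this
    exact abs_le.2 ⟨this.1.le, this.2.le⟩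
  have hmx : m ^ 2 ≤ 1 - x 2 ^ 2 := hmz _ (abs_le.2 ⟨by linarith, by linarith⟩)
  have hmy : m ^ 2 ≤ 1 - y 2 ^ 2 := hmz _ (abs_le.2 ⟨by linarith [hy2.1], by linarith [hy2.2]⟩)
  have hy1 := hyQ.1
  have hx1' := hxQ.1
  -- the angle of `y` modulo `2 π`
  have hclose : ∀ s : ℝ, (s = 0 ∨ s = 2 * Real.pi ∨ s = -(2 * Real.pi)) →
      |(co y).1 + s - (co x).1| ≤ Real.pi → |(co y).1 + s - (co x).1| < b := by
    intro s hs hsd
    have hpts : pt ((co y).1 + s, y 2) = y := by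
      rcases hs with rfl | hs
      · rw [add_zero]; exact hye
      · rw [pt_periodic _ _ s hs]; exact hye
    refine angle_close (v := ((co y).1 + s, y 2)) (v' := co x) hm hy3.le hx3 hmy hmx hsd ?_
    rw [hpts, hxe, norm_sub_rev]
    exact hxy
  refine ⟨hy, ?_, ⟨hy2.1, hy2.2.le⟩⟩
  have hav : -Real.pi ≤ a - v ∧ a + v ≤ Real.pi := by
    have hv0 : a - v < a + v := by linarith
    constructor
    · by_contra hcon
      push Not at hcon
      have h7 : (min (a + v) ((a - v + -Real.pi) / 2)) ∈ Ioc (a - v) (a + v) :=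
        ⟨lt_min (by linarith) (by linarith), min_le_left _ _⟩
      have h8 := hR (show (min (a + v) ((a - v + -Real.pi) / 2), (co x).2) ∈ Rect a z v w from
        ⟨h7, hxR.2⟩)
      have h9 := h8.1.1
      have h10 := min_le_right (a + v) ((a - v + -Real.pi) / 2)
      simp only at h9
      linarith
    · exact (hR (show (a + v, (co x).2) ∈ Rect a z v w from ⟨⟨hv0, le_rfl⟩, hxR.2⟩)).1.2
  by_cases hA : |(co y).1 - (co x).1| ≤ Real.pi
  · have h7 := abs_lt.1 (hclose 0 (Or.inl rfl) (by simpa using hA))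
    rw [add_zero] at h7
    exact ⟨by linarith, by linarith⟩
  · push Not at hA
    exfalso
    rcases lt_abs.1 hA with h7 | h7
    · have h8 := abs_lt.1 (hclose (-(2 * Real.pi)) (Or.inr (Or.inr rfl))
        (abs_le.2 ⟨by linarith, by linarith [hy1.2, hx1'.1]⟩))
      linarith [hy1.2]
    · have h8 := abs_lt.1 (hclose (2 * Real.pi) (Or.inr (Or.inl rfl))
        (abs_le.2 ⟨by linarith [hy1.1, hx1'.2], by linarith⟩))
      linarith [hy1.1]

theorem sig_RectI {a z v w b r : ℝ} (hR : Rect a z v w ⊆ Q0) (hv : 0 ≤ v) (hw : 0 ≤ w)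
    (hb : 0 < b) (hr : 0 < r) :
    (4 * Real.pi)⁻¹ * (4 * (v * w) - 4 * (w * b) - 4 * (v * r)) ≤
      sig.real (pc (RectI a z v w b r)) := by
  have hsub : RectI a z v w b r ⊆ Q0 := by
    refine Subset.trans ?_ hR
    rintro ⟨p, q⟩ ⟨⟨h1, h2⟩, h3, h4⟩
    simp only at h1 h2 h3 h4
    exact ⟨⟨by linarith, by linarith⟩, ⟨by linarith, by linarith⟩⟩
  have h1 := sig_inter_pc hsub (measurableSet_RectI a z v w b r) MeasurableSet.univ
  rw [univ_inter, preimage_univ, univ_inter] at h1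
  rw [h1]
  refine mul_le_mul_of_nonneg_left ?_ (by have := Real.pi_pos; positivity)
  rw [Measure.real, RectI, Measure.volume_eq_prod, Measure.prod_prod, Real.volume_Ioo,
    Real.volume_Ioo, ENNReal.toReal_mul, ENNReal.toReal_ofReal', ENNReal.toReal_ofReal']
  have e1 : a + v - b - (a - v + b) = 2 * v - 2 * b := by ring
  have e2 : z + w - r - (z - w + r) = 2 * w - 2 * r := by ring
  rw [e1, e2]
  rcases le_total (2 * v - 2 * b) 0 with h2 | h2
  · rw [max_eq_right h2, zero_mul]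
    nlinarith
  · rw [max_eq_left h2]
    rcases le_total (2 * w - 2 * r) 0 with h3 | h3
    · rw [max_eq_right h3, mul_zero]
      nlinarith
    · rw [max_eq_left h3]
      nlinarith

theorem preimage_T {a z v w A c : ℝ} (hA : 0 < A) (hc : 0 < c) :
    T a z (A * c)⁻¹ (c / A) ⁻¹' Rect a z v w = Rect 0 0 (A * c * v) (A * w / c) := by
  ext ⟨p, q⟩
  have hAc : 0 < A * c := mul_pos hA hc
  have hcA : 0 < c / A := div_pos hc hA
  have e1 : p = A * c * ((A * c)⁻¹ * p) := by field_simp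
  have e2 : A * w / c = w / (c / A) := by field_simp
  simp only [T, Rect, mem_preimage, mem_prod, mem_Ioc, zero_sub, zero_add]
  refine and_congr (and_congr ?_ ?_) (and_congr ?_ ?_)
  · constructor
    · intro h
      have : -v < (A * c)⁻¹ * p := by linarith
      rw [e1]
      have := mul_lt_mul_of_pos_left this hAc
      linarith only [this]
    · intro h
      rw [e1] at h
      have : -v < (A * c)⁻¹ * p := by
        by_contra hcon
        push Not at hcon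
        have := mul_le_mul_of_nonneg_left hcon hAc.le
        linarith only [this, h]
      linarith
  · constructor
    · intro h
      have : (A * c)⁻¹ * p ≤ v := by linarith
      rw [e1]
      exact mul_le_mul_of_nonneg_left this hAc.le
    · intro h
      rw [e1] at h
      have : (A * c)⁻¹ * p ≤ v := by
        by_contra hcon
        push Not at hcon
        have := mul_lt_mul_of_pos_left hcon hAc
        linarith only [this, h]
      linarith
  · rw [e2, ← neg_div, div_lt_iff₀ hcA]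
    constructor
    · intro h; linarith
    · intro h; linarith
  · rw [e2, le_div_iff₀ hcA]
    constructor
    · intro h; linarith
    · intro h; linarith

theorem patch_dist {a z v w A c η ε : ℝ} (hA : 0 < A) (hc : 0 < c) (hc2 : c ^ 2 = 1 - z ^ 2)
    (hη : 0 < η) (hη1 : η < 1) (hR : Rect a z v w ⊆ Q0)
    (hw : 2 * w ≤ η / 4 * c ^ 2) (h1 : A * c * v ≤ ε) (h2 : A * w / c ≤ ε) (hε0 : 0 < ε)
    (hε : ε ≤ 1 / 2)
    (hε2 : ε ^ 2 ≤ η / 4) (hv2 : v ^ 2 ≤ η / 4) {p p' : ℝ × ℝ}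
    (hp : p ∈ Rect 0 0 (A * c * v) (A * w / c)) (hp' : p' ∈ Rect 0 0 (A * c * v) (A * w / c)) :
    (1 - η) / A * ‖pt p - pt p'‖ ≤
      ‖pt (T a z (A * c)⁻¹ (c / A) p) - pt (T a z (A * c)⁻¹ (c / A) p')‖ := by
  have hq : T a z (A * c)⁻¹ (c / A) p ∈ Rect a z v w := by
    rw [← mem_preimage, preimage_T hA hc]; exact hp
  have hq' : T a z (A * c)⁻¹ (c / A) p' ∈ Rect a z v w := by
    rw [← mem_preimage, preimage_T hA hc]; exact hp'
  have hQ := hR hq
  have hQ' := hR hq'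
  have hz1 : |z| ≤ 1 := (sq_le_one_iff_abs_le_one _).1
    (by linarith only [hc2, sq_nonneg c])
  have hlow := le_norm_pt_sub (v := T a z (A * c)⁻¹ (c / A) p) (v' := T a z (A * c)⁻¹ (c / A) p')
    (δ := η / 4) (z₀ := z) (w := w) (e := v) (by linarith) (by linarith) hz1
    (by rw [← hc2]; positivity) (by rw [← hc2]; exact hw)
    (abs_le.2 ⟨by linarith [hq.2.1], by linarith [hq.2.2]⟩)
    (abs_le.2 ⟨by linarith [hq'.2.1], by linarith [hq'.2.2]⟩)
    (abs_le.2 ⟨hQ.2.1.le, hQ.2.2.le⟩) (abs_le.2 ⟨hQ'.2.1.le, hQ'.2.2.le⟩)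
    (abs_le.2 ⟨by linarith [hq.1.1, hq'.1.2], by linarith [hq.1.2, hq'.1.1]⟩) hv2
  have hpz : |p.2| ≤ ε := abs_le.2 ⟨by linarith [hp.2.1], by linarith [hp.2.2]⟩
  have hpz' : |p'.2| ≤ ε := abs_le.2 ⟨by linarith [hp'.2.1], by linarith [hp'.2.2]⟩
  have hup := norm_pt_sub_le hε0.le (by linarith) hpz hpz'
  rw [← hc2] at hlow
  have hT1 : (T a z (A * c)⁻¹ (c / A) p).2 - (T a z (A * c)⁻¹ (c / A) p').2 =
      c / A * (p.2 - p'.2) := by simp only [T]; ring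
  have hT2 : (T a z (A * c)⁻¹ (c / A) p).1 - (T a z (A * c)⁻¹ (c / A) p').1 =
      (A * c)⁻¹ * (p.1 - p'.1) := by simp only [T]; ring
  rw [hT1, hT2] at hlow
  set X := (p.2 - p'.2) ^ 2 with hX
  set Y := (p.1 - p'.1) ^ 2 with hY
  have e1 : (c / A * (p.2 - p'.2)) ^ 2 / c ^ 2 = X / A ^ 2 := by rw [hX]; field_simp
  have e2 : ((A * c)⁻¹ * (p.1 - p'.1)) ^ 2 * c ^ 2 = Y / A ^ 2 := by rw [hY]; field_simp
  rw [e1, e2] at hlow
  have hX0 : 0 ≤ X := sq_nonneg _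
  have hY0 : 0 ≤ Y := sq_nonneg _
  refine abs_le_of_sq_le_sq' ?_ (norm_nonneg _) |>.2
  refine le_trans ?_ hlow
  have he : 0 < 1 - ε ^ 2 := by linarith only [hε2, hη1]
  have h3 : ‖pt p - pt p'‖ ^ 2 ≤ X / (1 - ε ^ 2) + Y := by
    rw [div_add' _ _ _ he.ne', le_div_iff₀ he]
    linarith
  have h4 : ((1 - η) / A * ‖pt p - pt p'‖) ^ 2 ≤
      (1 - η) ^ 2 / A ^ 2 * (X / (1 - ε ^ 2) + Y) := by
    rw [mul_pow, div_pow]
    exact mul_le_mul_of_nonneg_left h3 (by positivity)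
  refine h4.trans ?_
  have h5 : (1 - η) ^ 2 / (1 - ε ^ 2) ≤ (1 - 2 * (η / 4)) / (1 + η / 4) := by
    rw [div_le_div_iff₀ he (by linarith)]
    have h51 : (1 - η) ^ 2 ≤ 1 - η := by nlinarith only [hη, hη1]
    calc (1 - η) ^ 2 * (1 + η / 4) ≤ (1 - η) * (1 + η / 4) :=
          mul_le_mul_of_nonneg_right h51 (by linarith)
      _ ≤ (1 - 2 * (η / 4)) * (1 - η / 4) := by linarith only [sq_nonneg η]
      _ ≤ (1 - 2 * (η / 4)) * (1 - ε ^ 2) :=
          mul_le_mul_of_nonneg_left (by linarith) (by linarith)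
  have h6 : (1 - η) ^ 2 ≤ (1 - η / 4) ^ 2 := pow_le_pow_left₀ (by linarith) (by linarith) 2
  have e3 : (1 - η) ^ 2 / A ^ 2 * (X / (1 - ε ^ 2) + Y) =
      (1 - η) ^ 2 / (1 - ε ^ 2) * (X / A ^ 2) + (1 - η) ^ 2 * (Y / A ^ 2) := by
    field_simp
  rw [e3]
  exact add_le_add (mul_le_mul_of_nonneg_right h5 (by positivity))
    (mul_le_mul_of_nonneg_right h6 (by positivity))

theorem patch_area {a z v w A c : ℝ} (hA : 0 < A) (hc : 0 < c) (hR : Rect a z v w ⊆ Q0)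
    (hR' : Rect 0 0 (A * c * v) (A * w / c) ⊆ Q0) {B : Set E3} (hB : MeasurableSet B) :
    sig.real (pc (Rect 0 0 (A * c * v) (A * w / c)) ∩
      (fun y => pt (T a z (A * c)⁻¹ (c / A) (co y))) ⁻¹' B) =
      A ^ 2 * sig.real (B ∩ pc (Rect a z v w)) := by
  have hm : Measurable (fun y => pt (T a z (A * c)⁻¹ (c / A) (co y))) :=
    measurable_pt.comp ((measurable_T _ _ _ _).comp measurable_co)
  rw [inter_comm, sig_inter_pc hR' (measurableSet_Rect _ _ _ _) (hm hB),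
    sig_inter_pc hR (measurableSet_Rect _ _ _ _) hB]
  have e1 : pt ⁻¹' ((fun y => pt (T a z (A * c)⁻¹ (c / A) (co y))) ⁻¹' B) ∩
      Rect 0 0 (A * c * v) (A * w / c) =
      T a z (A * c)⁻¹ (c / A) ⁻¹' (pt ⁻¹' B ∩ Rect a z v w) := by
    rw [preimage_inter, preimage_T hA hc]
    ext u
    constructor
    · rintro ⟨h1, h2⟩
      refine ⟨?_, h2⟩
      simp only [mem_preimage] at h1 ⊢
      rwa [co_pt (hR' h2)] at h1
    · rintro ⟨h1, h2⟩
      refine ⟨?_, h2⟩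
      simp only [mem_preimage] at h1 ⊢
      rwa [co_pt (hR' h2)]
  rw [e1, volume_preimage_T a z (inv_pos.2 (mul_pos hA hc)) (div_pos hc hA)
    ((measurable_pt hB).inter (measurableSet_Rect _ _ _ _))]
  have e2 : ((A * c)⁻¹ * (c / A))⁻¹ = A ^ 2 := by field_simp
  rw [e2]
  ring

theorem ceil_bounds {X : ℝ} (hX : 1 ≤ X) : 0 < ⌈X⌉₊ ∧ X ≤ (⌈X⌉₊ : ℝ) ∧ (⌈X⌉₊ : ℝ) ≤ 2 * X := by
  refine ⟨Nat.ceil_pos.2 (by linarith), Nat.le_ceil X, ?_⟩
  have := Nat.ceil_lt_add_one (show 0 ≤ X by linarith)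
  linarith

theorem grid_disj {c u x : ℝ} (hu : 0 < u) {i j : ℕ}
    (hi : x ∈ Ioc (c + (2 * i + 1) * u - u) (c + (2 * i + 1) * u + u))
    (hj : x ∈ Ioc (c + (2 * j + 1) * u - u) (c + (2 * j + 1) * u + u)) : i = j := by
  have key : ∀ i j : ℕ, x ∈ Ioc (c + (2 * i + 1) * u - u) (c + (2 * i + 1) * u + u) →
      x ∈ Ioc (c + (2 * j + 1) * u - u) (c + (2 * j + 1) * u + u) → i ≤ j := by
    intro i j hi hj
    have h1 : 2 * (i : ℝ) * u < 2 * ((j : ℝ) + 1) * u := by linarith [hi.1, hj.2]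
    have h2 : (i : ℝ) < (j : ℝ) + 1 := by
      by_contra hcon
      push Not at hcon
      have := mul_le_mul_of_nonneg_right hcon hu.le
      linarith only [this, h1]
    exact Nat.lt_succ_iff.1 (by exact_mod_cast h2)
  exact le_antisymm (key i j hi hj) (key j i hj hi)

theorem exists_patches_aux {η κ : ℝ} (hη : 0 < η) (hη1 : η < 1) (hκ : 0 < κ) : ∃ ε₀ : ℝ, 0 < ε₀ ∧
    ∀ A : ℝ, 1 ≤ A → ∀ ρ : ℝ, 0 < ρ → ρ * A ≤ ε₀ →
    ∃ (n₁ n₂ : ℕ) (P D I : Fin n₁ × Fin n₂ → Set E3) (S : Fin n₁ × Fin n₂ → E3 → E3),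
      (∀ k, MeasurableSet (P k)) ∧ (∀ k, MeasurableSet (D k)) ∧ (∀ k, MeasurableSet (I k)) ∧
      (∀ k, Measurable (S k)) ∧ (∀ k k', k ≠ k' → Disjoint (P k) (P k')) ∧
      (∀ k, P k ⊆ sphere 0 1) ∧ (∀ k, D k ⊆ sphere 0 1) ∧ (∀ k, MapsTo (S k) (D k) (P k)) ∧
      (∀ k, ∀ y ∈ D k, ∀ y' ∈ D k, (1 - η) / A * ‖y - y'‖ ≤ ‖S k y - S k y'‖) ∧
      (∀ k (B : Set E3), MeasurableSet B →
        sig.real (D k ∩ S k ⁻¹' B) = A ^ 2 * sig.real (B ∩ P k)) ∧
      (∀ k, I k ⊆ P k) ∧ (∀ k, ∀ x ∈ I k, ∀ y, ‖y‖ = 1 → ‖x - y‖ < ρ → y ∈ P k) ∧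
      1 - κ ≤ ∑ k, sig.real (I k) := by
  have hπ := Real.pi_pos
  -- the constants
  obtain ⟨Z, hZ0, hZ1, hZκ⟩ : ∃ Z : ℝ, 1 / 2 ≤ Z ∧ Z < 1 ∧ 1 - Z ≤ κ / 3 := by
    refine ⟨1 - min (κ / 3) (1 / 2), ?_, ?_, ?_⟩
    · have := min_le_right (κ / 3) (1 / 2 : ℝ)
      linarith
    · have : 0 < min (κ / 3) (1 / 2 : ℝ) := lt_min (by linarith) (by norm_num)
      linarith
    · have := min_le_left (κ / 3) (1 / 2 : ℝ)
      linarith
  set m := Real.sqrt (1 - Z ^ 2) with hmdef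
  have hm0 : 0 < m := Real.sqrt_pos.2 (by nlinarith only [hZ0, hZ1])
  have hm2 : m ^ 2 = 1 - Z ^ 2 := Real.sq_sqrt (by nlinarith only [hZ0, hZ1])
  have hm1 : m < 1 := by nlinarith only [hm2, hm0, hZ0]
  set ε := η / 4 * m / 2 with hεdef
  have hε0 : 0 < ε := by positivity
  have hεm : ε ≤ η / 8 := by
    rw [hεdef]
    have := mul_le_mul_of_nonneg_left hm1.le hη.le
    linarith only [this]
  have hε1 : ε ≤ 1 / 8 := by linarith
  have hε2 : ε ^ 2 ≤ η / 4 := by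
    have := mul_le_mul_of_nonneg_left hε1 hε0.le
    linarith only [this, hεm, hη]
  set C := Real.pi / (2 * m) with hC
  have hC0 : 0 < C := by positivity
  refine ⟨(2 * κ / 3) / (2 * C / ε + 2 / (ε * m)), by positivity, ?_⟩
  intro A hA ρ hρ hρA
  have hA0 : 0 < A := by linarith
  -- the grid
  have hX1 : 1 ≤ Real.pi * A / ε := by
    rw [le_div_iff₀ hε0]
    have : 1 * 1 ≤ Real.pi * A := mul_le_mul (by linarith [Real.pi_gt_three]) hA zero_le_one hπ.le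
    linarith
  have hX2 : 1 ≤ Z * A / (ε * m) := by
    rw [le_div_iff₀ (by positivity)]
    have g1 := mul_le_mul_of_nonneg_left hA (by linarith only [hZ0] : (0 : ℝ) ≤ Z)
    have g2 := mul_le_mul_of_nonneg_left hm1.le hε0.le
    linarith only [g1, g2, hε1, hZ0]
  obtain ⟨hn1, hn2, hn3⟩ := ceil_bounds hX1
  obtain ⟨hk1, hk2, hk3⟩ := ceil_bounds hX2
  set n₁ := ⌈Real.pi * A / ε⌉₊
  set n₂ := ⌈Z * A / (ε * m)⌉₊
  have hn₁ : (0 : ℝ) < n₁ := by exact_mod_cast hn1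
  have hn₂ : (0 : ℝ) < n₂ := by exact_mod_cast hk1
  set v := Real.pi / n₁ with hv
  set w := Z / n₂ with hw
  have hv0 : 0 < v := by positivity
  have hw0 : 0 < w := by positivity
  have hvA : A * v ≤ ε := by
    rw [div_le_iff₀ hε0] at hn2
    rw [hv, mul_div_assoc', div_le_iff₀ hn₁]
    linarith
  have hwA : A * w ≤ ε * m := by
    rw [div_le_iff₀ (by positivity)] at hk2
    rw [hw, mul_div_assoc', div_le_iff₀ hn₂]
    linarith
  have hn₁v : n₁ * v = Real.pi := by rw [hv]; field_simp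
  have hn₂w : n₂ * w = Z := by rw [hw]; field_simp
  have hvε : v ≤ ε := le_trans (le_mul_of_one_le_left hv0.le hA) hvA
  have hwε : w ≤ ε * m := le_trans (le_mul_of_one_le_left hw0.le hA) hwA
  -- centres
  let a : ℕ → ℝ := fun j => -Real.pi + (2 * j + 1) * v
  let z : ℕ → ℝ := fun k => -Z + (2 * k + 1) * w
  have ha : ∀ j : ℕ, j < n₁ → -Real.pi ≤ a j - v ∧ a j + v ≤ Real.pi := by
    intro j hj
    have h1 : (j : ℝ) + 1 ≤ n₁ := by exact_mod_cast hj
    have h2 : (0 : ℝ) ≤ j := Nat.cast_nonneg j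
    constructor
    · have := mul_nonneg h2 hv0.le
      simp only [a]; linarith only [this]
    · have : ((j : ℝ) + 1) * v ≤ n₁ * v := mul_le_mul_of_nonneg_right h1 hv0.le
      simp only [a]; linarith
  have hz : ∀ k : ℕ, k < n₂ → -Z ≤ z k - w ∧ z k + w ≤ Z := by
    intro j hj
    have h1 : (j : ℝ) + 1 ≤ n₂ := by exact_mod_cast hj
    have h2 : (0 : ℝ) ≤ j := Nat.cast_nonneg j
    constructor
    · have := mul_nonneg h2 hw0.le
      simp only [z]; linarith only [this]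
    · have : ((j : ℝ) + 1) * w ≤ n₂ * w := mul_le_mul_of_nonneg_right h1 hw0.le
      simp only [z]; linarith
  have hRQ : ∀ j k : ℕ, j < n₁ → k < n₂ → Rect (a j) (z k) v w ⊆ Q0 := by
    rintro j k hj hk ⟨p, q⟩ ⟨⟨h1, h2⟩, h3, h4⟩
    have h5 := ha j hj
    have h6 := hz k hk
    simp only at h1 h2 h3 h4
    exact ⟨⟨by linarith, by linarith⟩, ⟨by linarith, by linarith⟩⟩
  have hmz : ∀ k : ℕ, k < n₂ → ∀ t, |t - z k| ≤ w → m ^ 2 ≤ 1 - t ^ 2 := by
    intro k hk t ht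
    have h1 := hz k hk
    have h2 := abs_le.1 ht
    rw [hm2]
    have : |t| ≤ Z := abs_le.2 ⟨by linarith, by linarith⟩
    have h3 : t ^ 2 ≤ Z ^ 2 := by
      rw [← sq_abs t]; exact pow_le_pow_left₀ (abs_nonneg _) this 2
    linarith
  let c : ℕ → ℝ := fun k => Real.sqrt (1 - z k ^ 2)
  have hcm : ∀ k : ℕ, k < n₂ → m ≤ c k ∧ c k ^ 2 = 1 - z k ^ 2 ∧ c k ≤ 1 := by
    intro k hk
    have h1 := hmz k hk (z k) (by simpa using hw0.le)
    have h2 : c k ^ 2 = 1 - z k ^ 2 := Real.sq_sqrt (by linarith only [sq_nonneg m, h1])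
    refine ⟨Real.le_sqrt_of_sq_le h1, h2, ?_⟩
    have h3 : 0 ≤ c k := Real.sqrt_nonneg _
    nlinarith only [sq_nonneg (z k), h2, h3]
  have hc0 : ∀ k : ℕ, k < n₂ → 0 < c k := fun k hk => hm0.trans_le (hcm k hk).1
  have hbv : ∀ k : ℕ, k < n₂ → A * c k * v ≤ ε := by
    intro k hk
    have h1 := (hcm k hk).2.2
    have h2 := hc0 k hk
    have h3 : A * c k * v = c k * (A * v) := by ring
    rw [h3]
    have h4 : c k * (A * v) ≤ 1 * (A * v) := mul_le_mul_of_nonneg_right h1 (by positivity)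
    linarith
  have hbw : ∀ k : ℕ, k < n₂ → A * w / c k ≤ ε := by
    intro k hk
    have h1 := (hcm k hk).1
    have h2 := hc0 k hk
    rw [div_le_iff₀ h2]
    have : ε * m ≤ ε * c k := mul_le_mul_of_nonneg_left h1 hε0.le
    linarith
  have hRQ' : ∀ k : ℕ, k < n₂ → Rect 0 0 (A * c k * v) (A * w / c k) ⊆ Q0 := by
    rintro k hk ⟨p, q⟩ ⟨⟨h1, h2⟩, h3, h4⟩
    have h5 := hbv k hk
    have h6 := hbw k hk
    simp only at h1 h2 h3 h4
    have h7 := Real.pi_gt_three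
    exact ⟨⟨by linarith, by linarith⟩, ⟨by linarith, by linarith⟩⟩
  refine ⟨n₁, n₂, fun k => pc (Rect (a k.1) (z k.2) v w),
    fun k => pc (Rect 0 0 (A * c k.2 * v) (A * w / c k.2)),
    fun k => pc (RectI (a k.1) (z k.2) v w (C * ρ) ρ),
    fun k y => pt (T (a k.1) (z k.2) (A * c k.2)⁻¹ (c k.2 / A) (co y)),
    fun k => measurableSet_pc (measurableSet_Rect _ _ _ _),
    fun k => measurableSet_pc (measurableSet_Rect _ _ _ _),
    fun k => measurableSet_pc (measurableSet_RectI _ _ _ _ _ _),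
    fun k => measurable_pt.comp ((measurable_T _ _ _ _).comp measurable_co), ?_,
    fun k => pc_subset _, fun k => pc_subset _, ?_, ?_, ?_, ?_, ?_, ?_⟩
  · -- disjointness
    rintro ⟨i, j⟩ ⟨i', j'⟩ hne
    rw [Set.disjoint_left]
    rintro x ⟨-, hx1, hx2⟩ ⟨-, hy1, hy2⟩
    apply hne
    have e1 : (i : ℕ) = i' := grid_disj hv0 hx1 hy1
    have e2 : (j : ℕ) = j' := grid_disj hw0 hx2 hy2
    rw [Fin.ext e1, Fin.ext e2]
  · -- the maps
    rintro ⟨i, j⟩ y hy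
    refine pt_mem_pc (hRQ i j i.2 j.2) ?_
    rw [← mem_preimage, preimage_T hA0 (hc0 j j.2)]
    exact hy.2
  · -- distances
    rintro ⟨i, j⟩ y hy y' hy'
    have h1 := patch_dist hA0 (hc0 j j.2) (hcm j j.2).2.1 hη hη1 (hRQ i j i.2 j.2)
      (by
        have h2 := (hcm j j.2).1
        have h3 : m * m ≤ c j ^ 2 := by
          rw [← sq]; exact pow_le_pow_left₀ hm0.le h2 2
        have h4 : 2 * w ≤ η / 4 * (m * m) := by
          have : 2 * (ε * m) = η / 4 * (m * m) := by rw [hεdef]; ring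
          linarith
        have h5 : η / 4 * (m * m) ≤ η / 4 * c j ^ 2 := mul_le_mul_of_nonneg_left h3 (by linarith)
        linarith)
      (hbv j j.2) (hbw j j.2) hε0 (by linarith) hε2
      ((pow_le_pow_left₀ hv0.le hvε 2).trans hε2) hy.2 hy'.2
    rw [eq_pt_co (hRQ' j j.2) hy, eq_pt_co (hRQ' j j.2) hy'] at h1
    exact h1
  · -- areas
    rintro ⟨i, j⟩ B hB
    exact patch_area hA0 (hc0 j j.2) (hRQ i j i.2 j.2) (hRQ' j j.2) hB
  · rintro ⟨i, j⟩ x ⟨h0, ⟨h1, h2⟩, h3, h4⟩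
    have hb : 0 < C * ρ := by positivity
    simp only at h1 h2 h3 h4
    exact ⟨h0, ⟨by linarith, by linarith⟩, ⟨by linarith, by linarith⟩⟩
  · rintro ⟨i, j⟩ x hx y hy hxy
    exact interior_patch hm0 hρ (hRQ i j i.2 j.2) (by have := hz j j.2; linarith) (hmz j j.2)
      hx hy hxy
  · -- total area
    have h1 : ∀ k : Fin n₁ × Fin n₂,
        (4 * Real.pi)⁻¹ * (4 * (v * w) - 4 * (w * (C * ρ)) - 4 * (v * ρ)) ≤
          sig.real (pc (RectI (a k.1) (z k.2) v w (C * ρ) ρ)) := by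
      rintro ⟨i, j⟩
      exact sig_RectI (hRQ i j i.2 j.2) hv0.le hw0.le (by positivity) hρ
    refine le_trans ?_ (Finset.sum_le_sum fun k _ => h1 k)
    rw [Finset.sum_const, Finset.card_univ, Fintype.card_prod, Fintype.card_fin, Fintype.card_fin,
      nsmul_eq_mul, Nat.cast_mul]
    have h2 : (n₁ : ℝ) * n₂ * ((4 * Real.pi)⁻¹ *
        (4 * (v * w) - 4 * (w * (C * ρ)) - 4 * (v * ρ))) =
        Z - n₁ * Z * (C * ρ) / Real.pi - n₂ * ρ := by
      have : (n₁ : ℝ) * n₂ * ((4 * Real.pi)⁻¹ *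
        (4 * (v * w) - 4 * (w * (C * ρ)) - 4 * (v * ρ))) =
        Real.pi⁻¹ * ((n₁ * v) * (n₂ * w) - n₁ * (n₂ * w) * (C * ρ) - (n₁ * v) * (n₂ * ρ)) := by
        field_simp
      rw [this, hn₁v, hn₂w]
      field_simp
    rw [h2]
    have h3 : n₁ * Z * (C * ρ) / Real.pi ≤ ρ * A * (2 * C / ε) := by
      have h31 : (n₁ : ℝ) * Z ≤ 2 * (Real.pi * A / ε) * 1 :=
        mul_le_mul hn3 hZ1.le (by linarith) (by positivity)
      rw [div_le_iff₀ hπ]
      calc (n₁ : ℝ) * Z * (C * ρ) ≤ 2 * (Real.pi * A / ε) * 1 * (C * ρ) :=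
            mul_le_mul_of_nonneg_right h31 (by positivity)
        _ = ρ * A * (2 * C / ε) * Real.pi := by field_simp
    have h4 : n₂ * ρ ≤ ρ * A * (2 / (ε * m)) := by
      calc (n₂ : ℝ) * ρ ≤ 2 * (Z * A / (ε * m)) * ρ := mul_le_mul_of_nonneg_right hk3 hρ.le
        _ ≤ 2 * (1 * A / (ε * m)) * ρ := by gcongr
        _ = _ := by field_simp
    have h5 : ρ * A * (2 * C / ε + 2 / (ε * m)) ≤ 2 * κ / 3 := by
      rwa [le_div_iff₀ (by positivity)] at hρA
    linarith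

/-- Disjoint measurable patches `P k` covering most of the sphere, which are images of patches
`D k` whose area is `A ^ 2` times that of `P k`, under maps `S k` which contract distances at most
by the factor `(1 - η) / A`; `I k` is the part of `P k` at distance `≥ ρ` from the rest. -/
theorem exists_patches {η κ : ℝ} (hη : 0 < η) (hη1 : η < 1) (hκ : 0 < κ) : ∃ ε₀ : ℝ, 0 < ε₀ ∧
    ∀ A : ℝ, 1 ≤ A → ∀ ρ : ℝ, 0 < ρ → ρ * A ≤ ε₀ →
    ∃ (n : ℕ) (P D I : Fin n → Set E3) (S : Fin n → E3 → E3),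
      (∀ k, MeasurableSet (P k)) ∧ (∀ k, MeasurableSet (D k)) ∧ (∀ k, MeasurableSet (I k)) ∧
      (∀ k, Measurable (S k)) ∧ (∀ k k', k ≠ k' → Disjoint (P k) (P k')) ∧
      (∀ k, P k ⊆ sphere 0 1) ∧ (∀ k, D k ⊆ sphere 0 1) ∧ (∀ k, MapsTo (S k) (D k) (P k)) ∧
      (∀ k, ∀ y ∈ D k, ∀ y' ∈ D k, (1 - η) / A * ‖y - y'‖ ≤ ‖S k y - S k y'‖) ∧
      (∀ k (B : Set E3), MeasurableSet B →
        sig.real (D k ∩ S k ⁻¹' B) = A ^ 2 * sig.real (B ∩ P k)) ∧
      (∀ k, I k ⊆ P k) ∧ (∀ k, ∀ x ∈ I k, ∀ y, ‖y‖ = 1 → ‖x - y‖ < ρ → y ∈ P k) ∧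
      1 - κ ≤ ∑ k, sig.real (I k) := by
  obtain ⟨ε₀, h0, h⟩ := exists_patches_aux hη hη1 hκ
  refine ⟨ε₀, h0, fun A hA ρ hρ hρA => ?_⟩
  obtain ⟨n₁, n₂, P, D, I, S, c1, c2, c3, c4, c5, c6, c7, c8, c9, c10, c11, c12, c13⟩ :=
    h A hA ρ hρ hρA
  refine ⟨n₁ * n₂, fun k => P (finProdFinEquiv.symm k), fun k => D (finProdFinEquiv.symm k),
    fun k => I (finProdFinEquiv.symm k), fun k => S (finProdFinEquiv.symm k),
    fun k => c1 _, fun k => c2 _, fun k => c3 _, fun k => c4 _,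
    fun k k' hk => c5 _ _ fun e => hk (finProdFinEquiv.symm.injective e),
    fun k => c6 _, fun k => c7 _, fun k => c8 _, fun k => c9 _, fun k => c10 _, fun k => c11 _,
    fun k => c12 _, ?_⟩
  rw [Equiv.sum_comp finProdFinEquiv.symm (fun k => sig.real (I k))]
  exact c13

end Pool.Agent.Helper32.RZ
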