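import Pool.Agent.Helper42.RZ.Basic

/-! # RZ-S10: distances and areas in coordinates -/

set_option autoImplicit false

open MeasureTheory Set Metric Filter Topology
open scoped ENNReal

namespace Pool.Agent.Helper32.RZ

open Pool.Agent.Helper42.RZ

/-! ## Distances in coordinates -/

theorem norm_pt_sub_sq {v v' : ℝ × ℝ} (hv : |v.2| ≤ 1) (hv' : |v'.2| ≤ 1) :
    ‖pt v - pt v'‖ ^ 2 = (v.2 - v'.2) ^ 2 +
      (Real.sqrt (1 - v.2 ^ 2) - Real.sqrt (1 - v'.2 ^ 2)) ^ 2 +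
      4 * Real.sqrt (1 - v.2 ^ 2) * Real.sqrt (1 - v'.2 ^ 2) *
        Real.sin ((v.1 - v'.1) / 2) ^ 2 := by
  obtain ⟨a, z⟩ := v
  obtain ⟨b, t⟩ := v'
  simp only at hv hv' ⊢
  have h1 : (0 : ℝ) ≤ 1 - z ^ 2 := by
    have := sq_le_one_iff_abs_le_one _ |>.2 hv
    linarith
  have h2 : (0 : ℝ) ≤ 1 - t ^ 2 := by
    have := sq_le_one_iff_abs_le_one _ |>.2 hv'
    linarith
  rw [EuclideanSpace.norm_eq, Real.sq_sqrt (by positivity)]
  simp only [pt, Fin.sum_univ_three, Real.norm_eq_abs, sq_abs, PiLp.sub_apply]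
  simp only [Matrix.cons_val_zero, Matrix.cons_val_one, Matrix.cons_val]
  have h3 : Real.sin ((a - b) / 2) ^ 2 = (1 - Real.cos (a - b)) / 2 := by
    have h4 := Real.sin_sq_add_cos_sq ((a - b) / 2)
    have h5 : Real.cos (a - b) = 2 * Real.cos ((a - b) / 2) ^ 2 - 1 := by
      rw [← Real.cos_two_mul]; congr 1; ring
    linarith
  rw [h3, Real.cos_sub]
  have h4 := Real.sin_sq_add_cos_sq a
  have h5 := Real.sin_sq_add_cos_sq b
  have h6 := Real.sq_sqrt h1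
  have h7 := Real.sq_sqrt h2
  set p := Real.sqrt (1 - z ^ 2)
  set q := Real.sqrt (1 - t ^ 2)
  have h8 : Real.cos a ^ 2 = 1 - Real.sin a ^ 2 := by linarith
  have h9 : Real.cos b ^ 2 = 1 - Real.sin b ^ 2 := by linarith
  ring_nf
  rw [h8, h9]
  ring

theorem norm_pt_sub_le {v v' : ℝ × ℝ} {ε : ℝ} (h0 : 0 ≤ ε) (h1 : ε < 1) (hv : |v.2| ≤ ε)
    (hv' : |v'.2| ≤ ε) :
    (1 - ε ^ 2) * ‖pt v - pt v'‖ ^ 2 ≤ (v.2 - v'.2) ^ 2 + (1 - ε ^ 2) * (v.1 - v'.1) ^ 2 := by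
  rw [norm_pt_sub_sq (hv.trans h1.le) (hv'.trans h1.le)]
  obtain ⟨a, z⟩ := v
  obtain ⟨b, t⟩ := v'
  simp only at hv hv' ⊢
  have hz : z ^ 2 ≤ ε ^ 2 := sq_le_sq' (by linarith [neg_abs_le z]) (by linarith [le_abs_self z])
  have ht : t ^ 2 ≤ ε ^ 2 := sq_le_sq' (by linarith [neg_abs_le t]) (by linarith [le_abs_self t])
  have he : 0 < 1 - ε ^ 2 := by nlinarith only [h0, h1]
  set p := Real.sqrt (1 - z ^ 2) with hp
  set q := Real.sqrt (1 - t ^ 2) with hq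
  have hp2 : p ^ 2 = 1 - z ^ 2 := Real.sq_sqrt (by linarith)
  have hq2 : q ^ 2 = 1 - t ^ 2 := Real.sq_sqrt (by linarith)
  have hp0 : 0 ≤ p := Real.sqrt_nonneg _
  have hq0 : 0 ≤ q := Real.sqrt_nonneg _
  have hp1 : p ≤ 1 := by nlinarith only [hp2, hp0, sq_nonneg z]
  have hq1 : q ≤ 1 := by nlinarith only [hq2, hq0, sq_nonneg t]
  have hpq : 1 - ε ^ 2 ≤ p * q := by
    have : (1 - ε ^ 2) ^ 2 ≤ (p * q) ^ 2 := by
      rw [mul_pow, hp2, hq2]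
      linarith only [mul_nonneg (sub_nonneg.2 hz) (sub_nonneg.2 ht),
        mul_nonneg (sub_nonneg.2 hz) he.le, mul_nonneg (sub_nonneg.2 ht) he.le]
    exact abs_le_of_sq_le_sq' this (by positivity) |>.2
  have h3 : (p - q) ^ 2 * (p + q) ^ 2 = (z - t) ^ 2 * (z + t) ^ 2 := by
    have : (p - q) * (p + q) = (t - z) * (z + t) := by linear_combination hp2 - hq2
    calc (p - q) ^ 2 * (p + q) ^ 2 = ((p - q) * (p + q)) ^ 2 := by ring
      _ = _ := by rw [this]; ring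
  have h4 : 4 * (1 - ε ^ 2) ≤ (p + q) ^ 2 := by linarith only [hp2, hq2, hz, ht, hpq]
  have h5 : (z + t) ^ 2 ≤ 4 * ε ^ 2 := by linarith only [hz, ht, sq_nonneg (z - t)]
  have h6 : (p - q) ^ 2 * (1 - ε ^ 2) ≤ (z - t) ^ 2 * ε ^ 2 := by
    have h7 := mul_le_mul_of_nonneg_left h4 (sq_nonneg (p - q))
    have h8 := mul_le_mul_of_nonneg_left h5 (sq_nonneg (z - t))
    linarith only [h3, h7, h8]
  have h9 : Real.sin ((a - b) / 2) ^ 2 ≤ ((a - b) / 2) ^ 2 := by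
    rw [← sq_abs, ← sq_abs ((a - b) / 2)]
    exact pow_le_pow_left₀ (abs_nonneg _) Real.abs_sin_le_abs 2
  have h10 : 4 * p * q * Real.sin ((a - b) / 2) ^ 2 ≤ (a - b) ^ 2 := by
    have : p * q ≤ 1 := mul_le_one₀ hp1 hq0 hq1
    calc 4 * p * q * Real.sin ((a - b) / 2) ^ 2 ≤ 4 * 1 * ((a - b) / 2) ^ 2 := by
          have := mul_le_mul this h9 (sq_nonneg _) zero_le_one
          linarith only [this]
      _ = (a - b) ^ 2 := by ring
  have h11 := mul_le_mul_of_nonneg_left h10 he.le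
  linarith only [h6, h11]

theorem sin_sq_lower {δ x : ℝ} (hx : x ^ 2 ≤ δ) (hδ : δ ≤ 1) :
    (1 - δ) * x ^ 2 ≤ Real.sin x ^ 2 := by
  have key : ∀ x : ℝ, 0 ≤ x → x ^ 2 ≤ δ → (1 - δ) * x ^ 2 ≤ Real.sin x ^ 2 := by
    intro x h0 hx
    rcases h0.eq_or_lt with rfl | h0
    · simp
    · have h1 := Real.sin_gt_sub_cube h0
      have h2 : 0 ≤ x - x ^ 3 / 6 := by
        have := mul_le_mul_of_nonneg_left (hx.trans hδ) h0.le
        linarith only [this, h0]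
      have h3 : (x - x ^ 3 / 6) ^ 2 ≤ Real.sin x ^ 2 := pow_le_pow_left₀ h2 h1.le 2
      have h4 : (1 - δ) * x ^ 2 ≤ (x - x ^ 3 / 6) ^ 2 := by
        have h5 : (x - x ^ 3 / 6) ^ 2 = x ^ 2 * (1 - x ^ 2 / 6) ^ 2 := by ring
        rw [h5]
        have h6 : 1 - δ ≤ (1 - x ^ 2 / 6) ^ 2 := by
          linarith only [hx, sq_nonneg (x ^ 2), sq_nonneg x]
        have := mul_le_mul_of_nonneg_left h6 (sq_nonneg x)
        linarith only [this]
      linarith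
  rcases le_total 0 x with h | h
  · exact key x h hx
  · have := key (-x) (by linarith) (by simpa using hx)
    simpa using this

theorem le_norm_pt_sub {v v' : ℝ × ℝ} {δ z₀ w e : ℝ} (hδ0 : 0 < δ) (hδ : δ ≤ 1 / 4)
    (hz₀ : |z₀| ≤ 1) (hm : 0 < 1 - z₀ ^ 2) (hw : 2 * w ≤ δ * (1 - z₀ ^ 2))
    (hz : |v.2 - z₀| ≤ w) (hz' : |v'.2 - z₀| ≤ w) (hv : |v.2| ≤ 1) (hv' : |v'.2| ≤ 1)
    (he : |v.1 - v'.1| ≤ 2 * e) (he2 : e ^ 2 ≤ δ) :
    (1 - 2 * δ) / (1 + δ) * ((v.2 - v'.2) ^ 2 / (1 - z₀ ^ 2)) +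
      (1 - δ) ^ 2 * ((v.1 - v'.1) ^ 2 * (1 - z₀ ^ 2)) ≤ ‖pt v - pt v'‖ ^ 2 := by
  rw [norm_pt_sub_sq hv hv']
  obtain ⟨a, z⟩ := v
  obtain ⟨b, t⟩ := v'
  simp only at hv hv' hz hz' he ⊢
  set M := 1 - z₀ ^ 2 with hM
  have hM1 : M ≤ 1 := by have := sq_nonneg z₀; linarith
  have hw0 : 0 ≤ w := (abs_nonneg _).trans hz
  have hsq : ∀ u : ℝ, |u - z₀| ≤ w → |u| ≤ 1 → |u ^ 2 - z₀ ^ 2| ≤ δ * M := by
    intro u hu hu1
    have : u ^ 2 - z₀ ^ 2 = (u - z₀) * (u + z₀) := by ring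
    rw [this, abs_mul]
    have h2 : |u + z₀| ≤ 2 := (abs_add_le _ _).trans (by linarith)
    calc |u - z₀| * |u + z₀| ≤ w * 2 := mul_le_mul hu h2 (abs_nonneg _) hw0
      _ ≤ δ * M := by linarith
  have hz2 := abs_le.1 (hsq z hz hv)
  have ht2 := abs_le.1 (hsq t hz' hv')
  have hz3 : z ^ 2 ≤ 1 := sq_le_one_iff_abs_le_one _ |>.2 hv
  have ht3 : t ^ 2 ≤ 1 := sq_le_one_iff_abs_le_one _ |>.2 hv'
  set p := Real.sqrt (1 - z ^ 2) with hp
  set q := Real.sqrt (1 - t ^ 2) with hq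
  have hp2 : p ^ 2 = 1 - z ^ 2 := Real.sq_sqrt (by linarith)
  have hq2 : q ^ 2 = 1 - t ^ 2 := Real.sq_sqrt (by linarith)
  have hp0 : 0 ≤ p := Real.sqrt_nonneg _
  have hq0 : 0 ≤ q := Real.sqrt_nonneg _
  have hpl : (1 - δ) * M ≤ p ^ 2 := by rw [hp2]; linarith
  have hql : (1 - δ) * M ≤ q ^ 2 := by rw [hq2]; linarith
  have hpu : p ^ 2 ≤ (1 + δ) * M := by rw [hp2]; linarith
  have hqu : q ^ 2 ≤ (1 + δ) * M := by rw [hq2]; linarith
  have hpq : (1 - δ) * M ≤ p * q := by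
    have h0 : 0 ≤ (1 - δ) * M := mul_nonneg (by linarith) hm.le
    have : ((1 - δ) * M) ^ 2 ≤ (p * q) ^ 2 := by
      calc ((1 - δ) * M) ^ 2 = ((1 - δ) * M) * ((1 - δ) * M) := sq _
        _ ≤ p ^ 2 * q ^ 2 := mul_le_mul hpl hql h0 (sq_nonneg _)
        _ = (p * q) ^ 2 := by ring
    exact abs_le_of_sq_le_sq' this (by positivity) |>.2
  have hsum : (p + q) ^ 2 ≤ 4 * ((1 + δ) * M) := by
    linarith only [hpu, hqu, sq_nonneg (p - q)]
  have hsuml : 4 * ((1 - δ) * M) ≤ (p + q) ^ 2 := by linarith only [hpl, hql, hpq]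
  have h3 : (p - q) ^ 2 * (p + q) ^ 2 = (z - t) ^ 2 * (z + t) ^ 2 := by
    have : (p - q) * (p + q) = (t - z) * (z + t) := by linear_combination hp2 - hq2
    calc (p - q) ^ 2 * (p + q) ^ 2 = ((p - q) * (p + q)) ^ 2 := by ring
      _ = _ := by rw [this]; ring
  have hzt : 4 * (1 - M) - 4 * (δ * M) ≤ (z + t) ^ 2 := by
    have e1 : (z + t) ^ 2 = 4 * z₀ ^ 2 + 4 * z₀ * ((z - z₀) + (t - z₀)) + ((z - z₀) + (t - z₀)) ^ 2 := by
      ring
    have h6 : |z₀ * ((z - z₀) + (t - z₀))| ≤ 1 * (w + w) := by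
      rw [abs_mul]
      exact mul_le_mul hz₀ ((abs_add_le _ _).trans (add_le_add hz hz')) (abs_nonneg _) zero_le_one
    have h7 := neg_abs_le (z₀ * ((z - z₀) + (t - z₀)))
    have h8 := sq_nonneg ((z - z₀) + (t - z₀))
    have h9 : z₀ ^ 2 = 1 - M := by rw [hM]; ring
    rw [e1, h9]
    linarith only [h6, h7, h8, hw]
  have h10 : (z - t) ^ 2 * (4 * (1 - 2 * δ)) ≤ ((z - t) ^ 2 + (p - q) ^ 2) * (4 * ((1 + δ) * M)) := by
    have h11 : 4 * (1 - 2 * δ) ≤ (p + q) ^ 2 + (z + t) ^ 2 := by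
      have := mul_nonneg hδ0.le (sub_nonneg.2 hM1)
      linarith only [hsuml, hzt, this]
    calc (z - t) ^ 2 * (4 * (1 - 2 * δ)) ≤ (z - t) ^ 2 * ((p + q) ^ 2 + (z + t) ^ 2) :=
          mul_le_mul_of_nonneg_left h11 (sq_nonneg _)
      _ = ((z - t) ^ 2 + (p - q) ^ 2) * (p + q) ^ 2 := by rw [mul_add, ← h3]; ring
      _ ≤ _ := mul_le_mul_of_nonneg_left hsum (by positivity)
  have h12 : (1 - 2 * δ) / (1 + δ) * ((z - t) ^ 2 / M) ≤ (z - t) ^ 2 + (p - q) ^ 2 := by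
    rw [div_mul_div_comm, div_le_iff₀ (by positivity)]
    linarith only [h10]
  have h13 : (1 - δ) * ((a - b) / 2) ^ 2 ≤ Real.sin ((a - b) / 2) ^ 2 := by
    refine sin_sq_lower ?_ (by linarith)
    have h14 : |(a - b) / 2| ≤ e := by
      rw [abs_div, abs_two]; linarith
    calc ((a - b) / 2) ^ 2 = |(a - b) / 2| ^ 2 := (sq_abs _).symm
      _ ≤ e ^ 2 := pow_le_pow_left₀ (abs_nonneg _) h14 2
      _ ≤ δ := he2
  have h15 : (1 - δ) ^ 2 * ((a - b) ^ 2 * M) ≤ 4 * p * q * Real.sin ((a - b) / 2) ^ 2 := by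
    have h16 : 0 ≤ (1 - δ) * ((a - b) / 2) ^ 2 := mul_nonneg (by linarith) (sq_nonneg _)
    have h17 := mul_le_mul hpq h13 h16 (by positivity)
    linarith only [h17]
  linarith

/-! ## Coordinate patches -/

/-- the patch of the sphere with coordinates in `R` -/
def pc (R : Set (ℝ × ℝ)) : Set E3 := {x | ‖x‖ = 1 ∧ co x ∈ R}

theorem measurableSet_pc {R : Set (ℝ × ℝ)} (hR : MeasurableSet R) : MeasurableSet (pc R) :=
  (measurableSet_eq_fun measurable_norm measurable_const).inter (measurable_co hR)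

theorem pc_subset (R : Set (ℝ × ℝ)) : pc R ⊆ sphere 0 1 := fun x hx => by
  simpa using hx.1

theorem pt_mem_pc {R : Set (ℝ × ℝ)} (hR : R ⊆ Q0) {v : ℝ × ℝ} (hv : v ∈ R) : pt v ∈ pc R := by
  have h := hR hv
  refine ⟨norm_pt (abs_le.2 ⟨h.2.1.le, h.2.2.le⟩), ?_⟩
  rw [co_pt h]
  exact hv

theorem preimage_pc {R : Set (ℝ × ℝ)} (hR : R ⊆ Q0) (B : Set E3) :
    pt ⁻¹' (B ∩ pc R) ∩ Q0 = pt ⁻¹' B ∩ R := by
  ext v
  constructor
  · rintro ⟨⟨h1, h2⟩, h3⟩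
    refine ⟨h1, ?_⟩
    have := h2.2
    rwa [co_pt h3] at this
  · rintro ⟨h1, h2⟩
    exact ⟨⟨h1, pt_mem_pc hR h2⟩, hR h2⟩

theorem sig_inter_pc {R : Set (ℝ × ℝ)} (hR : R ⊆ Q0) (hRm : MeasurableSet R) {B : Set E3}
    (hB : MeasurableSet B) :
    sig.real (B ∩ pc R) = (4 * Real.pi)⁻¹ * volume.real (pt ⁻¹' B ∩ R) := by
  rw [sig_real (hB.inter (measurableSet_pc hRm)), preimage_pc hR]

theorem eq_pt_co {R : Set (ℝ × ℝ)} (hR : R ⊆ Q0) {x : E3} (hx : x ∈ pc R) : pt (co x) = x := by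
  have h := hR hx.2
  exact (pt_co hx.1 (abs_lt.2 ⟨h.2.1, h.2.2⟩)).1

/-! ## The affine maps -/

/-- the affine map of the plane -/
def T (a z α β : ℝ) (v : ℝ × ℝ) : ℝ × ℝ := (a + α * v.1, z + β * v.2)

theorem measurable_T (a z α β : ℝ) : Measurable (T a z α β) := by
  unfold T
  fun_prop

theorem map_T (a z : ℝ) {α β : ℝ} (hα : 0 < α) (hβ : 0 < β) :
    Measure.map (T a z α β) (volume : Measure (ℝ × ℝ)) =
      (ENNReal.ofReal (α * β)⁻¹) • (volume : Measure (ℝ × ℝ)) := by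
  have h1 : ∀ (c γ : ℝ), 0 < γ → Measure.map (fun x : ℝ => c + γ * x) volume =
      ENNReal.ofReal γ⁻¹ • (volume : Measure ℝ) := by
    intro c γ hγ
    have : (fun x : ℝ => c + γ * x) = (fun x => c + x) ∘ (fun x => γ * x) := rfl
    rw [this, ← Measure.map_map (by fun_prop) (by fun_prop), Real.map_volume_mul_left hγ.ne',
      Measure.map_smul, map_add_left_eq_self, abs_of_pos (inv_pos.2 hγ)]
  have h2 : T a z α β = Prod.map (fun x : ℝ => a + α * x) (fun x : ℝ => z + β * x) := rfl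
  rw [h2, Measure.volume_eq_prod, ← Measure.map_prod_map _ _ (by fun_prop) (by fun_prop),
    h1 _ _ hα, h1 _ _ hβ, Measure.prod_smul_left, Measure.prod_smul_right, smul_smul,
    ← ENNReal.ofReal_mul (inv_pos.2 hα).le, mul_inv]

theorem volume_preimage_T (a z : ℝ) {α β : ℝ} (hα : 0 < α) (hβ : 0 < β) {E : Set (ℝ × ℝ)}
    (hE : MeasurableSet E) :
    volume.real (T a z α β ⁻¹' E) = (α * β)⁻¹ * volume.real E := by
  have h := congrArg (fun μ : Measure (ℝ × ℝ) => μ E) (map_T a z hα hβ)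
  rw [Measure.map_apply (measurable_T _ _ _ _) hE, Measure.smul_apply, smul_eq_mul] at h
  rw [Measure.real, h, ENNReal.toReal_mul, ENNReal.toReal_ofReal (by positivity)]
  rfl

end Pool.Agent.Helper32.RZ
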